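import Pool.Agent.H95.RQ.Targets3

/-! Module PCX of rq_modules: characters as functions on all ideals. -/

set_option autoImplicit false

open NumberField NumberField.InfinitePlace IsDedekindDomain

namespace Pool.Agent.H14.RQ

open Pool.Agent.H95.RQ Pool.Agent.H28.RC

open scoped Classical in
theorem pf_PCX (h_RCG : T_RCG) : T_PCX := by
  intro K _ _ m hm
  have hmem : ∀ I J : Ideal (𝓞 K), I * J ∈ IM m ↔ I ∈ IM m ∧ J ∈ IM m := by
    intro I J
    constructor
    · rintro ⟨h1, h2⟩
      rw [← Ideal.isCoprime_iff_sup_eq] at h2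
      have h3 := mul_ne_zero_iff.1 h1
      refine ⟨⟨h3.1, ?_⟩, ⟨h3.2, ?_⟩⟩
      · rw [← Ideal.isCoprime_iff_sup_eq]
        exact h2.of_mul_left_left
      · rw [← Ideal.isCoprime_iff_sup_eq]
        exact h2.of_mul_left_right
    · rintro ⟨h1, h2⟩
      exact (IM m).mul_mem h1 h2
  constructor
  · intro χ hχ
    refine ⟨hm, ?_, ?_, ?_, ?_, ?_, ?_⟩
    · have h1 : (⊤ : Ideal (𝓞 K)) ∈ IM m := by
        rw [← Ideal.one_eq_top]
        exact (IM m).one_mem
      unfold xt
      rw [dif_pos h1]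
      have h2 : (⟨⊤, h1⟩ : IM m) = 1 := Subtype.ext Ideal.one_eq_top.symm
      rw [h2, map_one, Units.val_one]
    · intro I J
      unfold xt
      by_cases hI : I ∈ IM m
      · by_cases hJ : J ∈ IM m
        · rw [dif_pos ((hmem I J).2 ⟨hI, hJ⟩), dif_pos hI, dif_pos hJ, ← Units.val_mul, ← map_mul]
          rfl
        · rw [dif_neg (fun h => hJ ((hmem I J).1 h).2), dif_neg hJ, mul_zero]
      · rw [dif_neg (fun h => hI ((hmem I J).1 h).1), dif_neg hI, zero_mul]
    · unfold xt
      rw [dif_neg fun h => h.1 rfl]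
    · intro I hI0 hIm
      have hI : I ∈ IM m := ⟨hI0, hIm⟩
      obtain ⟨h, hh, hR⟩ := h_RCG K m hm
      obtain ⟨a, ha1, ha2, ha3⟩ := hR I hI
      have h1 : Ideal.span {a} ∈ IM m := ha3 ▸ (IM m).pow_mem hI h
      have h2 := hχ a h1 ha1 ha2
      have h3 : χ ⟨I, hI⟩ ^ h = 1 := by
        rw [← map_pow, ← h2]
        congr 1
        exact Subtype.ext ha3
      unfold xt
      rw [dif_pos hI]
      refine Complex.norm_eq_one_of_pow_eq_one (n := h) ?_ (by omega)
      rw [← Units.val_pow_eq_pow_val, h3, Units.val_one]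
    · intro I hI
      unfold xt
      rw [dif_neg fun h => hI h.2]
    · intro a ha ha1 ha2
      have h1 : Ideal.span {a} ∈ IM m := by
        refine ⟨by simpa using ha, ?_⟩
        rw [← Ideal.isCoprime_iff_sup_eq, Ideal.isCoprime_iff_exists]
        exact ⟨a, Ideal.mem_span_singleton_self a, -(a - 1), m.neg_mem ha1, by ring⟩
      unfold xt
      rw [dif_pos h1, hχ a h1 ha1 ha2, Units.val_one]
  · intro χ χ' h
    refine MonoidHom.ext fun I => Units.ext ?_
    have h1 := congrFun h I.1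
    unfold xt at h1
    rw [dif_pos I.2, dif_pos I.2] at h1
    exact h1

end Pool.Agent.H14.RQ
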