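import Pool.Agent.H32.RQ.Targets

/-!
Module PKP: the trivial bounds.
-/

set_option autoImplicit false

open Finset Pool.Agent.H32.RQ

namespace Pool.Agent.H14.RQ

theorem pf_PKP (hKPB : T_KPB) (hFJB : T_FJB) : T_PKP := by
  intro s Q J W T _ x y hJ hW hWQ hTQ hWT
  have hk := (hKPB Q W T hW hWQ hTQ hWT).1
  have hr : ∀ j k : ZMod Q, 0 ≤ rr Q J x y j k := fun j k =>
    Finset.prod_nonneg fun p _ => ((hFJB Q J hJ).2.1 _).1
  unfold pk pp
  constructor
  · refine div_nonneg (Finset.sum_nonneg fun j _ => Finset.sum_nonneg fun k _ => ?_) (by positivity)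
    exact mul_nonneg (by linarith [(hk j).2]) (hr j k)
  · refine div_le_div_of_nonneg_right (Finset.sum_le_sum fun j _ => Finset.sum_le_sum fun k _ => ?_)
      (by positivity)
    have h1 := mul_nonneg (hk j).1 (hr j k)
    linarith

end Pool.Agent.H14.RQ
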