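import Pool.Agent.H95.RQ.Targets3

/-! Module RCG of rq_modules: the ray class group has bounded exponent. -/

set_option autoImplicit false

open NumberField NumberField.InfinitePlace IsDedekindDomain

namespace Pool.Agent.H14.RQ

open Pool.Agent.H95.RQ Pool.Agent.H28.RC

theorem pf_RCG : T_RCG := by
  intro K _ _ m hm
  have hfin : Finite (𝓞 K ⧸ m) := Ideal.finiteQuotientOfFreeOfNeBot m hm
  refine ⟨Fintype.card (ClassGroup (𝓞 K)) * Nat.card (𝓞 K ⧸ m)ˣ * 2, ?_, ?_⟩
  · have h1 : 0 < Fintype.card (ClassGroup (𝓞 K)) := Fintype.card_pos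
    have h2 : 0 < Nat.card (𝓞 K ⧸ m)ˣ := Nat.card_pos
    have := Nat.mul_pos h1 h2
    omega
  · intro I hI
    have hI0 : I ≠ ⊥ := hI.1
    have hprin : (I ^ Fintype.card (ClassGroup (𝓞 K))).IsPrincipal := by
      have h1 : ClassGroup.mk0 (⟨I, mem_nonZeroDivisors_of_ne_zero hI0⟩ :
          nonZeroDivisors (Ideal (𝓞 K))) ^ Fintype.card (ClassGroup (𝓞 K)) = 1 :=
        pow_card_eq_one
      rw [← map_pow, ClassGroup.mk0_eq_one_iff] at h1
      exact h1
    obtain ⟨b, hb⟩ := hprin.principal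
    have hb' : I ^ Fintype.card (ClassGroup (𝓞 K)) = Ideal.span {b} := hb
    have hbm : Ideal.span {b} ∈ IM m := hb' ▸ (IM m).pow_mem hI _
    have hb0 : b ≠ 0 := by
      rintro rfl
      exact hbm.1 (by simp)
    have hunit : IsUnit (Ideal.Quotient.mk m b) := by
      have h1 := hbm.2
      rw [← Ideal.isCoprime_iff_sup_eq, Ideal.isCoprime_iff_exists] at h1
      obtain ⟨i, hi, j, hj, hij⟩ := h1
      obtain ⟨x, rfl⟩ := Ideal.mem_span_singleton'.1 hi
      refine IsUnit.of_mul_eq_one (Ideal.Quotient.mk m x) ?_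
      rw [← map_mul, ← map_one (Ideal.Quotient.mk m), Ideal.Quotient.eq]
      have : b * x - 1 = -j := by rw [← hij]; ring
      rw [this]
      exact m.neg_mem hj
    obtain ⟨u, hu⟩ := hunit
    have hue : (Ideal.Quotient.mk m b) ^ Nat.card (𝓞 K ⧸ m)ˣ = 1 := by
      rw [← hu, ← Units.val_pow_eq_pow_val, pow_card_eq_one', Units.val_one]
    refine ⟨(b ^ Nat.card (𝓞 K ⧸ m)ˣ) ^ 2, ?_, ?_, ?_⟩
    · rw [← Ideal.Quotient.eq, map_pow, map_pow, hue, one_pow, map_one]
    · intro v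
      have h1 : re v (((b ^ Nat.card (𝓞 K ⧸ m)ˣ) ^ 2 : 𝓞 K) : K) =
          (re v (b : K) ^ Nat.card (𝓞 K ⧸ m)ˣ) ^ 2 := by
        unfold re
        push_cast
        rw [map_pow, map_pow]
      rw [h1]
      have h2 : re v (b : K) ≠ 0 := by
        unfold re
        rw [map_ne_zero]
        exact_mod_cast hb0
      positivity
    · rw [pow_mul, pow_mul, hb', Ideal.span_singleton_pow, Ideal.span_singleton_pow]

end Pool.Agent.H14.RQ
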