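import Pool.Agent.H32.RQ.Targets

/-!
Module TRB: from the residues to the box.
-/

set_option autoImplicit false

open Finset Pool.Agent.H32.RQ

namespace Pool.Agent.H14.RQ

theorem count_le (A M : ℕ) [NeZero M] (hM : M ≤ 2 * A + 1) (t : ZMod M) :
    ((Finset.Icc (-(A : ℤ)) A).filter fun u : ℤ => (u : ZMod M) = t).card * M ≤
      2 * (2 * A + 1) := by
  have hM0 : 0 < M := Nat.pos_of_ne_zero (NeZero.ne M)
  have hMz : (0 : ℤ) < M := by exact_mod_cast hM0
  have e1 : ((Finset.Icc (-(A : ℤ)) A).filter fun u : ℤ => (u : ZMod M) = t) =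
      (Finset.Ico (-(A : ℤ)) (A + 1)).filter fun u : ℤ => u ≡ (t.val : ℤ) [ZMOD M] := by
    ext u
    rw [Finset.mem_filter, Finset.mem_filter, Finset.mem_Icc, Finset.mem_Ico,
      ← ZMod.intCast_eq_intCast_iff]
    have : (((t.val : ℤ)) : ZMod M) = t := by
      rw [Int.cast_natCast, ZMod.natCast_zmod_val]
    rw [this]
    constructor
    · rintro ⟨⟨h1, h2⟩, h3⟩
      exact ⟨⟨h1, by omega⟩, h3⟩
    · rintro ⟨⟨h1, h2⟩, h3⟩
      exact ⟨⟨h1, by omega⟩, h3⟩
  rw [e1]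
  have h1 := Int.Ico_filter_modEq_card (-(A : ℤ)) (A + 1) hMz (t.val : ℤ)
  obtain ⟨n, hn⟩ : ∃ n, n = ((Finset.Ico (-(A : ℤ)) (A + 1)).filter fun u : ℤ =>
    u ≡ (t.val : ℤ) [ZMOD M]).card := ⟨_, rfl⟩
  rw [← hn] at h1 ⊢
  have hMq : (0 : ℚ) < M := by exact_mod_cast hM0
  have h2 : (n : ℚ) * M ≤ (2 * A + 1) + M := by
    have h3 : (n : ℚ) ≤ max ((⌈(((A : ℤ) + 1 : ℤ) - ((t.val : ℤ) : ℚ)) / ((M : ℤ) : ℚ)⌉ : ℚ) -
        (⌈((-(A : ℤ) : ℤ) - ((t.val : ℤ) : ℚ)) / ((M : ℤ) : ℚ)⌉ : ℚ)) 0 := by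
      exact_mod_cast h1.le
    have h4 := Int.ceil_lt_add_one ((((A : ℤ) + 1 : ℤ) - ((t.val : ℤ) : ℚ)) / ((M : ℤ) : ℚ))
    have h5 := Int.le_ceil (((-(A : ℤ) : ℤ) - ((t.val : ℤ) : ℚ)) / ((M : ℤ) : ℚ))
    have h6 : (n : ℚ) ≤ (2 * A + 1) / M + 1 := by
      refine h3.trans (max_le ?_ (by positivity))
      have e2 : (((A : ℤ) + 1 : ℤ) - ((t.val : ℤ) : ℚ)) / ((M : ℤ) : ℚ) -
          ((-(A : ℤ) : ℤ) - ((t.val : ℤ) : ℚ)) / ((M : ℤ) : ℚ) = (2 * A + 1) / M := by
        push_cast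
        rw [← sub_div]
        congr 1
        ring
      linarith
    have h7 := mul_le_mul_of_nonneg_right h6 hMq.le
    rw [add_mul, div_mul_cancel₀ _ hMq.ne', one_mul] at h7
    exact h7
  have h3 : n * M ≤ (2 * A + 1) + M := by exact_mod_cast h2
  omega

theorem fibre_le (s A M : ℕ) [NeZero M] (hM : M ≤ 2 * A + 1) (r : Fin 2 → Mon s → ZMod M) :
    ((bx s A).filter fun c => cm (ZMod M) c = r).card * M ^ (2 * md s) ≤
      2 ^ (2 * md s) * (2 * A + 1) ^ (2 * md s) := by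
  classical
  have h1 : ((bx s A).filter fun c => cm (ZMod M) c = r) ⊆
      Fintype.piFinset fun i => Fintype.piFinset fun p =>
        (Finset.Icc (-(A : ℤ)) A).filter fun u : ℤ => (u : ZMod M) = r i p := by
    intro c hc
    obtain ⟨h2, h3⟩ := Finset.mem_filter.1 hc
    rw [Fintype.mem_piFinset]
    intro i
    rw [Fintype.mem_piFinset]
    intro p
    have h4 := Fintype.mem_piFinset.1 (Fintype.mem_piFinset.1 h2 i) p
    exact Finset.mem_filter.2 ⟨h4, congrFun (congrFun h3 i) p⟩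
  have h2 := Finset.card_le_card h1
  rw [Fintype.card_piFinset] at h2
  simp only [Fintype.card_piFinset] at h2
  have hp : ∀ m : ℕ, m ^ (2 * md s) = ∏ _i : Fin 2, ∏ _p : Mon s, m := by
    intro m
    rw [Finset.prod_const, Finset.prod_const, Finset.card_univ, Finset.card_univ,
      Fintype.card_fin, ← pow_mul, mul_comm]
  calc ((bx s A).filter fun c => cm (ZMod M) c = r).card * M ^ (2 * md s)
      ≤ (∏ i : Fin 2, ∏ p : Mon s,
        ((Finset.Icc (-(A : ℤ)) A).filter fun u : ℤ => (u : ZMod M) = r i p).card) *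
          M ^ (2 * md s) := Nat.mul_le_mul_right _ h2
    _ = ∏ i : Fin 2, ∏ p : Mon s,
        (((Finset.Icc (-(A : ℤ)) A).filter fun u : ℤ => (u : ZMod M) = r i p).card * M) := by
        rw [hp M, ← Finset.prod_mul_distrib]
        refine Finset.prod_congr rfl fun i _ => ?_
        rw [← Finset.prod_mul_distrib]
    _ ≤ ∏ _i : Fin 2, ∏ _p : Mon s, (2 * (2 * A + 1)) :=
        Finset.prod_le_prod' fun i _ => Finset.prod_le_prod' fun p _ => count_le A M hM (r i p)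
    _ = 2 ^ (2 * md s) * (2 * A + 1) ^ (2 * md s) := by
        rw [← hp, mul_pow]

theorem pf_TRB : T_TRB := by
  classical
  intro s A M _ E hM
  have h1 : ((bx s A).filter fun c => cm (ZMod M) c ∈ E).card =
      ∑ r ∈ E, ((bx s A).filter fun c => cm (ZMod M) c = r).card := by
    have h2 := Finset.card_eq_sum_card_fiberwise (s := (bx s A).filter fun c =>
      cm (ZMod M) c ∈ E) (f := fun c => cm (ZMod M) c) (t := E)
      (fun c hc => (Finset.mem_filter.1 hc).2)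
    rw [h2]
    refine Finset.sum_congr rfl fun r hr => ?_
    congr 1
    ext c
    simp only [Finset.mem_filter]
    constructor
    · rintro ⟨⟨a, -⟩, b⟩
      exact ⟨a, b⟩
    · rintro ⟨a, b⟩
      exact ⟨⟨a, by rw [b]; exact hr⟩, b⟩
  rw [h1, Finset.sum_mul, mul_comm (2 ^ (2 * md s) * (2 * A + 1) ^ (2 * md s)), ← smul_eq_mul
    E.card, ← Finset.sum_const]
  exact Finset.sum_le_sum fun r _ => fibre_le s A M hM r

end Pool.Agent.H14.RQ
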